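import Mathlib
import Pool.Agent.H225R3.MargDefs
import Pool.Agent.J4H57.TD.DE

/-!
# Margulis' injectivity radius conjecture for division algebras of odd degree

The theorem is about arithmetic groups of elements of norm one in division algebras `D` of odd degree
over number fields `L`.  There is no condition on `L` and `D`, except that the number of noncompact
embeddings and the dimension of `D` are bounded.

The main example.  Let `n` be odd, `k` a number field with quadratic extension `L`, `D` a central
division algebra of degree `n` (dimension `n ^ 2`) over `L` with an involution `x ↦ x'` of the second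
kind, which is nontrivial on `L` and fixes `k`.  The arithmetic subgroups of the group `SU (D)` of all
`x` in `D` with `x x' = 1` of reduced norm one are irreducible uniform lattices in the product of the
noncompact groups `SU (D) (k_v)`, `v` infinite.  These are `SL (n, ℝ)`, `SL (n, ℂ)` and `SU (p, q)`,
`p + q = n`.  The theorem applies to all these lattices if the number of noncompact factors is bounded.
If `n` is prime then all irreducible uniform lattices in such a product are obtained in this way, up to
commensurability, except those from hermitian forms over `L`, and those over fields `k` all of whose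
infinite places are noncompact, so that the degree of `k` is bounded.  In particular, for `n` an odd prime
number, Margulis' conjecture holds for all lattices in `SL (n, ℝ)` which come from division algebras.
(If `Γ` is an arithmetic subgroup of the adjoint group then for `γ` in `Γ` the element `γ ^ n` is the
image of some `g` in `SU (D)`, and one can take `r γ = g ^ n` and for `ρ` the `n`-th tensor power of the
adjoint representation, `e = n`.  This is why `r` is not assumed to be a homomorphism.)

Method.  Suppose that all eigenvalues of `ρ γ` are small.  Two eigenvalues of `r γ` at the same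
embedding of `L` generate a field of bounded degree over `L`, so by the two-dimensional Lehmer theorem
of `MP_162bbe_gt.SmallComposita` (`Pool.Agent.J4H57.TD.M`) they are multiplicatively dependent. Hence if
`z` is an eigenvalue off the unit circle, at the embedding `σ`, then `|y| = |z| ^ (± 1)` for all
conjugates `y` of `z` over `σ (L)`.  As `D` is a division algebra these are all eigenvalues of `r γ` at
`σ`.  Their number is odd, but their product has absolute value one.
-/

set_option autoImplicit false

namespace Pool.Agent.Results.MP_162bbe_gt.OddDivision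

open NumberField Module Pool.Agent.H225R3.Marg Pool.Agent.J4H57.TD

universe u

/-- The determinants of the maps `r γ` of the vector space `V` over `L` (up to sign, the constant
coefficients of the characteristic polynomials) have absolute value one at the embeddings in `S`; for
instance they are `1` or `-1`. -/
def NormOne {G : Type*} [Group G] {M : ℕ} {ρ : G →* Matrix (Fin M) (Fin M) ℂ}
    {Γ : Subgroup G} {e : ℕ} {L D V : Type} [Field L] [NumberField L] [DivisionRing D]
    [Algebra L D] [AddCommGroup V] [Module D V] [Module L V] [IsScalarTower L D V]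
    [Module.Finite L V] {S : Finset (L →+* ℂ)} (R : DRealization ρ Γ e L D V S) : Prop :=
  ∀ σ ∈ S, ∀ γ : Γ, ‖σ ((cp L (R.r γ)).coeff 0)‖ = 1

/-- The torsion-free subgroups `Γ` of `G` which have a realization `R`, up to `e`-th powers with
`0 < e ≤ E`, by linear maps of a one-dimensional vector space `V` over a division algebra `D` of odd
dimension at most `n` over a number field `L`, with set of noncompact embeddings `S`, such that
`|S| ≤ s`, and `NormOne R`. -/
def Family (s n E : ℕ) {G : Type*} [Group G] {M : ℕ}
    (ρ : G →* Matrix (Fin M) (Fin M) ℂ) : Set (Subgroup G) :=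
  {Γ | (∀ γ ∈ Γ, ∀ N : ℕ, 0 < N → γ ^ N = 1 → γ = 1) ∧
    ∃ (L D V : Type) (_ : Field L) (_ : NumberField L) (_ : DivisionRing D) (_ : Algebra L D)
      (_ : AddCommGroup V) (_ : Module D V) (_ : Module L V) (_ : IsScalarTower L D V)
      (_ : Module.Finite L V) (S : Finset (L →+* ℂ)) (e : ℕ) (R : DRealization ρ Γ e L D V S),
      0 < e ∧ e ≤ E ∧ S.card ≤ s ∧ finrank D V = 1 ∧ Odd (finrank L D) ∧ finrank L D ≤ n ∧
      NormOne R}

/-- For all `s`, `n` and `E` there is `c > 0` such that for every topological group `G` and every
continuous finite dimensional complex representation `ρ` of `G` the family `Family s n E ρ` of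
torsion-free subgroups of `G` is uniformly discrete; moreover, if a subgroup `Γ` of `G` has a realization
`R`, up to `e`-th powers with `0 < e ≤ E`, by linear maps of a one-dimensional vector space `V` over a
division algebra `D` of odd dimension at most `n` over a number field `L`, with set of noncompact
embeddings `S`, and `|S| ≤ s`, and `NormOne R`, then each element `γ` of `Γ` of infinite order has an
eigenvalue `l` (of `ρ γ`) with `|l| ≥ (1 + [L : ℚ]) ^ c`. -/
theorem result (s n E : ℕ) : ∃ c : ℝ, 0 < c ∧ ∀ (G : Type u) [Group G] (M : ℕ)
    (ρ : G →* Matrix (Fin M) (Fin M) ℂ),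
    (∀ [TopologicalSpace G], Continuous ρ → UniformlyDiscrete (Family s n E ρ)) ∧
    ∀ (Γ : Subgroup G) (L D V : Type) [Field L] [NumberField L] [DivisionRing D] [Algebra L D]
      [AddCommGroup V] [Module D V] [Module L V] [IsScalarTower L D V] [Module.Finite L V]
      (S : Finset (L →+* ℂ)) (e : ℕ) (R : DRealization ρ Γ e L D V S),
      0 < e → e ≤ E → S.card ≤ s → finrank D V = 1 → Odd (finrank L D) → finrank L D ≤ n →
      NormOne R → ∀ γ ∈ Γ, (∀ N : ℕ, 0 < N → γ ^ N ≠ 1) →
        ∃ l : ℂ, IsEig (ρ γ) l ∧ (1 + finrank ℚ L : ℝ) ^ c ≤ ‖l‖ := by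
  obtain ⟨c, hc, hgap⟩ := odd_gap s n
  have hc' : 0 < c / (E + 1) := by positivity
  have main : ∀ (G : Type u) [Group G] (M : ℕ) (ρ : G →* Matrix (Fin M) (Fin M) ℂ)
      (Γ : Subgroup G) (L D V : Type) [Field L] [NumberField L] [DivisionRing D] [Algebra L D]
      [AddCommGroup V] [Module D V] [Module L V] [IsScalarTower L D V] [Module.Finite L V]
      (S : Finset (L →+* ℂ)) (e : ℕ) (R : DRealization ρ Γ e L D V S),
      0 < e → e ≤ E → S.card ≤ s → finrank D V = 1 → Odd (finrank L D) → finrank L D ≤ n →
      NormOne R → ∀ γ ∈ Γ, (∀ N : ℕ, 0 < N → γ ^ N ≠ 1) →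
        ∃ l : ℂ, IsEig (ρ γ) l ∧ (1 + finrank ℚ L : ℝ) ^ (c / (E + 1)) ≤ ‖l‖ := by
    intro G _ M ρ Γ L D V _ _ _ _ _ _ _ _ _ S e R he heE hS h1 hodd hn hone γ hγ hinf
    have hVD : finrank L V = finrank L D := by
      rw [← Module.finrank_mul_finrank L D V, h1, mul_one]
    refine eig_of_gap R he heE hc hγ ?_
    exact hgap L D V S (R.r ⟨γ, hγ⟩) hS (hVD.le.trans hn) (R.unit _)
      (fun σ hσ z hz => R.compact σ hσ _ z hz) (not_nilp R hγ hinf) hVD hodd
      (fun σ hσ => hone σ hσ _)
  refine ⟨c / (E + 1), hc', fun G _ M ρ => ⟨?_, main G M ρ⟩⟩
  intro _ hρ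
  refine uniformlyDiscrete_of_eig hρ hc' _ ?_
  rintro Γ ⟨htf, L, D, V, _, _, _, _, _, _, _, _, _, S, e, R, he, heE, hS, h1, hodd, hn, hone⟩
  refine ⟨htf, fun γ hγ hinf => ?_⟩
  obtain ⟨l, hl, hle⟩ := main G M ρ Γ L D V S e R he heE hS h1 hodd hn hone γ hγ hinf
  exact ⟨l, hl, finrank ℚ L, finrank_pos, hle⟩

end Pool.Agent.Results.MP_162bbe_gt.OddDivision
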