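import Mathlib
import Pool.Agent.H225R3.MargDefs
import Pool.Agent.J4H57.TD.SD

/-!
# Margulis' injectivity radius conjecture: reduction to quadratic units and Salem numbers

`Pool.Agent.H225R3.MargDefs` contains the definitions: `Realization ρ Γ k n S` (a homomorphism `r`
from `Γ` to the `n` by `n` matrices over the ring of integers of the number field `k`, bounded under
all embeddings outside `S`, such that for `σ` in `S` the eigenvalues of `conjMat σ (r γ)` are
eigenvalues of `ρ γ`, and such that only `1` is mapped to a unipotent matrix) and `UniformlyDiscrete`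
(there is an identity neighbourhood `U` such that `g U g⁻¹` meets every group of the family in the
identity only).

There is no condition on the number field `k`, the set `S` of noncompact embeddings or the group, except
that `|S|` and `n` are bounded.  So part (1) is about all arithmetic lattices in all semisimple groups
of bounded dimension: an element `γ` of infinite order either has an eigenvalue of absolute value at
least `(1 + [k : ℚ]) ^ c`, or there is a monic polynomial `Q` of degree two with a unit as constant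
coefficient, over the same field `k`, with all roots on the unit circle at the embeddings outside `S`
but not at all embeddings, all of whose roots are products of eigenvalues of `γ`.  So by (2) Margulis'
conjecture for all groups follows if there is a gap for such polynomials `Q`, that is, essentially, from
Margulis' conjecture for products of groups `SL (2, ℝ)` and `SL (2, ℂ)`.  For absolutely simple groups
the field `k` is totally real and `|S| = 1`.  In this case one gets a Salem number `τ` such that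
`τ + τ⁻¹` generates the field `k` (at the noncompact embedding), and all eigenvalues of `γ` are, up to
roots of unity, rational powers of `τ`: this is (3).  By (4) Margulis' conjecture for all absolutely
simple groups follows from Lehmer's conjecture for Salem numbers; it holds unconditionally for all the
lattices over fields `k` which are not generated by a number `τ + τ⁻¹` with `τ` a small Salem number,
for example by (5) if `|discr k| ≥ (2 A ^ 2 d) ^ d`, `d = [k : ℚ]`, with fixed `A > 1`.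

Method.  Suppose that all eigenvalues of `ρ γ` are small. Any two eigenvalues of `conjMat σ (r γ)`
generate a field of bounded degree over `σ (k)`.  By the two-dimensional Lehmer theorem of
`MP_162bbe_gt.SmallComposita` (`Pool.Agent.J4H57.TD.M`) they are multiplicatively dependent.  Let `q`
be the minimal polynomial over `k` of an eigenvalue which is not in the closed unit disc.  Then up to
roots of unity all roots of `q` are rational powers of one of them, and as they are conjugate over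
`σ (k)` the exponents are `1` or `-1`.  The product of the roots outside the unit disc has at most two
conjugates over `σ (k)`.
-/

set_option autoImplicit false

namespace Pool.Agent.Results.MP_162bbe_gt.SalemNumbers

open NumberField Module Polynomial Pool.Agent.H225R3.Marg Pool.Agent.J4H57.TD

universe u

/-- `Q` is a monic polynomial of degree two over `k` with algebraic integers as coefficients; its
constant coefficient is a unit of the ring of algebraic integers; and at some embedding of `k` it has a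
root of absolute value greater than one. -/
def IsQuad {k : Type} [Field k] (Q : k[X]) : Prop :=
  Q.Monic ∧ Q.natDegree = 2 ∧ (∀ i, IsIntegral ℤ (Q.coeff i)) ∧ Q.coeff 0 ≠ 0 ∧
    IsIntegral ℤ (Q.coeff 0)⁻¹ ∧ ∃ (σ : k →+* ℂ) (y : ℂ), (Q.map σ).IsRoot y ∧ 1 < ‖y‖

/-- Let `k` be a number field, `S` a set of at most `s` embeddings of `k`, and `Q` a polynomial over `k`
with `IsQuad Q` whose roots are on the unit circle at all embeddings outside `S`.  Then `Q` has a root
of absolute value at least `A` at some embedding. -/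
def QuadGap (s : ℕ) (A : ℝ) : Prop :=
  ∀ (k : Type) [Field k] [NumberField k] (S : Finset (k →+* ℂ)) (Q : k[X]), S.card ≤ s → IsQuad Q →
    (∀ σ ∉ S, ∀ y : ℂ, (Q.map σ).IsRoot y → ‖y‖ = 1) →
    ∃ (σ : k →+* ℂ) (y : ℂ), (Q.map σ).IsRoot y ∧ A ≤ ‖y‖

/-- The torsion-free subgroups `Γ` of `G` which have a realization by matrices of size `n` over a
number field, with at most `s` noncompact embeddings. -/
def Family (s n : ℕ) {G : Type*} [Group G] {M : ℕ}
    (ρ : G →* Matrix (Fin M) (Fin M) ℂ) : Set (Subgroup G) :=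
  {Γ | (∀ γ ∈ Γ, ∀ N : ℕ, 0 < N → γ ^ N = 1 → γ = 1) ∧
    ∃ (k : Type) (_ : Field k) (_ : NumberField k) (S : Finset (k →+* ℂ))
      (_ : Realization ρ Γ k n S), S.card ≤ s}

/-- `τ` is a Salem number such that `k` is generated by an element `t` with `σ₀ t = τ + τ⁻¹`. -/
def SalemGen (k : Type) [Field k] [NumberField k] (σ₀ : k →+* ℂ) (τ : ℝ) : Prop :=
  IsSalem τ ∧ ∃ t : k, Algebra.adjoin ℚ {t} = ⊤ ∧ σ₀ t = ((τ + τ⁻¹ : ℝ) : ℂ)

/-- The torsion-free subgroups `Γ` of `G` which have a realization by matrices of size `n` over a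
totally real number field `k` with one noncompact embedding `σ₀`, such that `A ≤ τ` for all Salem
numbers `τ` with `SalemGen k σ₀ τ`. -/
def RealFamily (n : ℕ) (A : ℝ) {G : Type*} [Group G] {M : ℕ}
    (ρ : G →* Matrix (Fin M) (Fin M) ℂ) : Set (Subgroup G) :=
  {Γ | (∀ γ ∈ Γ, ∀ N : ℕ, 0 < N → γ ^ N = 1 → γ = 1) ∧
    ∃ (k : Type) (_ : Field k) (_ : NumberField k) (σ₀ : k →+* ℂ)
      (_ : Realization ρ Γ k n {σ₀}), TotReal k ∧ ∀ τ : ℝ, SalemGen k σ₀ τ → A ≤ τ}

/-- (1) For all `s` and `n` there is `c > 0` such that the following holds.  Let `Γ` be a subgroup of a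
group `G` with complex representation `ρ`, with a realization `R` by matrices of size `n` over a number
field `k`, with set of noncompact embeddings `S`, `|S| ≤ s`.  Let `γ` be an element of infinite order of
`Γ`.  Then `ρ γ` has an eigenvalue `l` with `|l| ≥ (1 + [k : ℚ]) ^ c`, or there is a polynomial `Q` over
`k` with `IsQuad Q` such that for all embeddings `σ` of `k` each root of `σ (Q)` is the product of some
of the eigenvalues of `conjMat σ (R.r γ)`.

(2) If `QuadGap s A` for some `A > 1` then for all `n` and all continuous finite dimensional complex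
representations `ρ` of topological groups `G` the family `Family s n ρ` is uniformly discrete.

(3) For all `n` there is `c > 0` such that the following holds.  Let `Γ` be a subgroup of a group `G`
with complex representation `ρ`, with a realization `R` by matrices of size `n` over a totally real
number field `k` with one noncompact embedding `σ₀`. Let `γ` be an element of infinite order of `Γ`.
Then `ρ γ` has an eigenvalue `l` with `|l| ≥ (1 + [k : ℚ]) ^ c`, or there is `τ` with `SalemGen k σ₀ τ`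
such that `τ = |l| ^ j` for an eigenvalue `l` of `ρ γ` and a positive integer `j` with `2 j ≤ n`, and
such that for each eigenvalue `l` of `conjMat σ₀ (R.r γ)` some positive power of `l` is an integral power
of `τ`.

(4) For all `n` and `A > 1` and all continuous finite dimensional complex representations `ρ` of
topological groups `G` the family `RealFamily n A ρ` is uniformly discrete.

(5) If `|discr k| ≥ (2 A ^ 2 d) ^ d`, where `d = [k : ℚ]`, then `A ≤ τ` for all `τ` with
`SalemGen k σ₀ τ`. -/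
theorem result :
    (∀ s n : ℕ, ∃ c : ℝ, 0 < c ∧ ∀ (G : Type u) [Group G] (M : ℕ)
      (ρ : G →* Matrix (Fin M) (Fin M) ℂ) (Γ : Subgroup G) (k : Type) [Field k] [NumberField k]
      (S : Finset (k →+* ℂ)) (R : Realization ρ Γ k n S), S.card ≤ s →
      ∀ (γ : G) (hγ : γ ∈ Γ), (∀ N : ℕ, 0 < N → γ ^ N ≠ 1) →
        (∃ l : ℂ, IsEig (ρ γ) l ∧ (1 + finrank ℚ k : ℝ) ^ c ≤ ‖l‖) ∨
        ∃ Q : k[X], IsQuad Q ∧ ∀ (σ : k →+* ℂ) (y : ℂ), (Q.map σ).IsRoot y →
          ∃ m ≤ (conjMat σ (R.r ⟨γ, hγ⟩)).charpoly.roots, y = m.prod) ∧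
    (∀ (s : ℕ) (A : ℝ), 1 < A → QuadGap s A → ∀ (n : ℕ) (G : Type u) [Group G] [TopologicalSpace G]
      (M : ℕ) (ρ : G →* Matrix (Fin M) (Fin M) ℂ), Continuous ρ →
      UniformlyDiscrete (Family s n ρ)) ∧
    (∀ n : ℕ, ∃ c : ℝ, 0 < c ∧ ∀ (G : Type u) [Group G] (M : ℕ)
      (ρ : G →* Matrix (Fin M) (Fin M) ℂ) (Γ : Subgroup G) (k : Type) [Field k] [NumberField k]
      (σ₀ : k →+* ℂ) (R : Realization ρ Γ k n {σ₀}), TotReal k →
      ∀ (γ : G) (hγ : γ ∈ Γ), (∀ N : ℕ, 0 < N → γ ^ N ≠ 1) →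
        (∃ l : ℂ, IsEig (ρ γ) l ∧ (1 + finrank ℚ k : ℝ) ^ c ≤ ‖l‖) ∨
        ∃ τ : ℝ, SalemGen k σ₀ τ ∧
          (∃ (j : ℕ) (l : ℂ), 1 ≤ j ∧ 2 * j ≤ n ∧ IsEig (ρ γ) l ∧ τ = ‖l‖ ^ j) ∧
          ∀ l : ℂ, IsEig (conjMat σ₀ (R.r ⟨γ, hγ⟩)) l →
            ∃ (N : ℕ) (m : ℤ), 0 < N ∧ l ^ N = (τ : ℂ) ^ m) ∧
    (∀ (n : ℕ) (A : ℝ), 1 < A → ∀ (G : Type u) [Group G] [TopologicalSpace G]
      (M : ℕ) (ρ : G →* Matrix (Fin M) (Fin M) ℂ), Continuous ρ →
      UniformlyDiscrete (RealFamily n A ρ)) ∧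
    ∀ (k : Type) [Field k] [NumberField k] (σ₀ : k →+* ℂ) (A τ : ℝ), 0 < A →
      (2 * A ^ 2 * finrank ℚ k) ^ finrank ℚ k ≤ |(discr k : ℝ)| → SalemGen k σ₀ τ → A ≤ τ := by
  have hroots : ∀ {k : Type} [Field k] [NumberField k] {n : ℕ} (σ : k →+* ℂ)
      (A : Matrix (Fin n) (Fin n) (𝓞 k)), (ccp A).map σ = (conjMat σ A).charpoly :=
    fun σ A => ccp_map σ A
  have key1 : ∀ s n : ℕ, ∃ c : ℝ, 0 < c ∧ ∀ (G : Type u) [Group G] (M : ℕ)
      (ρ : G →* Matrix (Fin M) (Fin M) ℂ) (Γ : Subgroup G) (k : Type) [Field k] [NumberField k]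
      (S : Finset (k →+* ℂ)) (R : Realization ρ Γ k n S), S.card ≤ s →
      ∀ (γ : G) (hγ : γ ∈ Γ), (∀ N : ℕ, 0 < N → γ ^ N ≠ 1) →
        (∃ l : ℂ, IsEig (ρ γ) l ∧ (1 + finrank ℚ k : ℝ) ^ c ≤ ‖l‖) ∨
        ∃ Q : k[X], IsQuad Q ∧ ∀ (σ : k →+* ℂ) (y : ℂ), (Q.map σ).IsRoot y →
          ∃ m ≤ (conjMat σ (R.r ⟨γ, hγ⟩)).charpoly.roots, y = m.prod := by
    intro s n
    obtain ⟨c, hc, halt⟩ := quad_alt s n
    refine ⟨c, hc, ?_⟩
    intro G _ M ρ Γ k _ _ S R hS γ hγ hinf
    by_cases hsm : ∀ σ ∈ S, ∀ z : ℂ, ((ccp (R.r ⟨γ, hγ⟩)).map σ).IsRoot z →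
        ‖z‖ < (1 + finrank ℚ k : ℝ) ^ c
    · right
      have hnil : ∀ N : ℕ, 0 < N → ¬ IsNilpotent (R.r ⟨γ, hγ⟩ ^ N - 1) := by
        intro N hN hnl
        rw [← map_pow] at hnl
        exact hinf N hN (congrArg Subtype.val (R.unipotent _ hnl))
      obtain ⟨σ₀⟩ : Nonempty (k →+* ℂ) := inferInstance
      obtain ⟨l, hl, htor⟩ := exists_nontorsion (R.r ⟨γ, hγ⟩) hnil σ₀
      obtain ⟨Q, h1, h2, h3, h4, h5⟩ := halt k S (ccp (R.r ⟨γ, hγ⟩)) (ccp_monic _)
        (ccp_natDegree _).le (ccp_unit (Realization.inv_mul R _)) hS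
        (fun σ hσ y hy => Realization.norm_one R _ σ hσ y (by rw [← ccp_map]; exact hy))
        ⟨σ₀, l, by rw [ccp_map]; exact hl, htor⟩ hsm
      refine ⟨Q, ⟨h1, h2, h3.1, h3.2.1, h3.2.2, h4⟩, fun σ y hy => ?_⟩
      rw [← hroots]
      exact h5 σ y hy
    · left
      push Not at hsm
      obtain ⟨σ, hσ, z, hz, hle⟩ := hsm
      exact ⟨z, R.eig σ hσ ⟨γ, hγ⟩ z (by rw [hroots] at hz; exact hz), hle⟩
  have key3 : ∀ n : ℕ, ∃ c : ℝ, 0 < c ∧ ∀ (G : Type u) [Group G] (M : ℕ)
      (ρ : G →* Matrix (Fin M) (Fin M) ℂ) (Γ : Subgroup G) (k : Type) [Field k] [NumberField k]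
      (σ₀ : k →+* ℂ) (R : Realization ρ Γ k n {σ₀}), TotReal k →
      ∀ (γ : G) (hγ : γ ∈ Γ), (∀ N : ℕ, 0 < N → γ ^ N ≠ 1) →
        (∃ l : ℂ, IsEig (ρ γ) l ∧ (1 + finrank ℚ k : ℝ) ^ c ≤ ‖l‖) ∨
        ∃ τ : ℝ, SalemGen k σ₀ τ ∧
          (∃ (j : ℕ) (l : ℂ), 1 ≤ j ∧ 2 * j ≤ n ∧ IsEig (ρ γ) l ∧ τ = ‖l‖ ^ j) ∧
          ∀ l : ℂ, IsEig (conjMat σ₀ (R.r ⟨γ, hγ⟩)) l →
            ∃ (N : ℕ) (m : ℤ), 0 < N ∧ l ^ N = (τ : ℂ) ^ m := by
    intro n
    obtain ⟨c, hc, halt⟩ := salem_alt n
    refine ⟨c, hc, ?_⟩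
    intro G _ M ρ Γ k _ _ σ₀ R hreal γ hγ hinf
    by_cases hsm : ∀ z : ℂ, ((ccp (R.r ⟨γ, hγ⟩)).map σ₀).IsRoot z →
        ‖z‖ < (1 + finrank ℚ k : ℝ) ^ c
    · right
      have hnil : ∀ N : ℕ, 0 < N → ¬ IsNilpotent (R.r ⟨γ, hγ⟩ ^ N - 1) := by
        intro N hN hnl
        rw [← map_pow] at hnl
        exact hinf N hN (congrArg Subtype.val (R.unipotent _ hnl))
      obtain ⟨l, hl, htor⟩ := exists_nontorsion (R.r ⟨γ, hγ⟩) hnil σ₀
      obtain ⟨τ, t, h1, h2, h3, ⟨j, z, h4, h5, h6, h7⟩, h8⟩ := halt k σ₀ (ccp (R.r ⟨γ, hγ⟩)) hreal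
        (ccp_monic _) (ccp_natDegree _).le (ccp_unit (Realization.inv_mul R _))
        (fun σ hσ y hy => Realization.norm_one R _ σ (by simpa using hσ) y
          (by rw [← ccp_map]; exact hy))
        ⟨σ₀, l, by rw [ccp_map]; exact hl, htor⟩ hsm
      refine ⟨τ, ⟨h1, t, h2, h3⟩, ⟨j, z, h4, h5, ?_, h7.symm⟩, ?_⟩
      · exact R.eig σ₀ (by simp) ⟨γ, hγ⟩ z (by rw [hroots] at h6; exact h6)
      · intro l hl
        exact h8 l (by rw [hroots]; exact hl)
    · left
      push Not at hsm
      obtain ⟨z, hz, hle⟩ := hsm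
      exact ⟨z, R.eig σ₀ (by simp) ⟨γ, hγ⟩ z (by rw [hroots] at hz; exact hz), hle⟩
  refine ⟨key1, ?_, key3, ?_, ?_⟩
  · intro s A hA hgap n G _ _ M ρ hρ
    obtain ⟨c, hc, hkey⟩ := key1 s n
    have hlogA := Real.log_pos hA
    have hlog2 : 0 < Real.log 2 := Real.log_pos (by norm_num)
    set c' : ℝ := min c (Real.log A / ((n + 1) * Real.log 2)) with hc'
    have hc'0 : 0 < c' := lt_min hc (by positivity)
    refine uniformlyDiscrete_of_eig hρ hc'0 _ ?_
    rintro Γ ⟨htf, k, _, _, S, R, hS⟩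
    refine ⟨htf, fun γ hγ hinf => ?_⟩
    have hd1 : (1 : ℝ) ≤ finrank ℚ k := by exact_mod_cast (finrank_pos : 0 < finrank ℚ k)
    rcases hkey G M ρ Γ k S R hS γ hγ hinf with ⟨l, hl, hle⟩ | ⟨Q, hQ, hr⟩
    · exact ⟨l, hl, finrank ℚ k, finrank_pos,
        (Real.rpow_le_rpow_of_exponent_le (by linarith) (min_le_left _ _)).trans hle⟩
    · have hout : ∀ σ ∉ S, ∀ y : ℂ, (conjMat σ (R.r ⟨γ, hγ⟩)).charpoly.IsRoot y → ‖y‖ = 1 :=
        fun σ hσ y hy => Realization.norm_one R _ σ hσ y hy
      obtain ⟨σ, y, hy, hAy⟩ := hgap k S Q hS hQ (by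
        intro σ hσ y hy
        obtain ⟨m, hm, rfl⟩ := hr σ y hy
        have h1 : ∀ m' : Multiset ℂ, (∀ y ∈ m', ‖y‖ = 1) → ‖m'.prod‖ = 1 := by
          intro m'
          induction m' using Multiset.induction with
          | empty => intro _; simp
          | cons a m' ih =>
            intro h5
            rw [Multiset.prod_cons, norm_mul, h5 a (Multiset.mem_cons_self a m'),
              ih fun y hy => h5 y (Multiset.mem_cons_of_mem hy), one_mul]
        exact h1 m fun y hy => hout σ hσ y (mem_roots'.mp (Multiset.mem_of_le hm hy)).2)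
      obtain ⟨m, hm, rfl⟩ := hr σ y hy
      have hcard : Multiset.card m ≤ n := by
        refine (Multiset.card_le_card hm).trans ((card_roots' _).trans ?_)
        rw [Matrix.charpoly_natDegree_eq_dim, Fintype.card_fin]
      by_contra hcon
      push Not at hcon
      have hlt := norm_multiset_prod_lt hA hc'0.le (min_le_right _ _) hcard (fun y hy => by
        have hy' := (mem_roots'.mp (Multiset.mem_of_le hm hy)).2
        by_cases hσ : σ ∈ S
        · have h1 := hcon y (R.eig σ hσ ⟨γ, hγ⟩ y hy') 1 le_rfl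
          norm_num at h1
          exact h1
        · rw [hout σ hσ y hy']
          exact Real.one_lt_rpow (by norm_num) hc'0)
      linarith
  · intro n A hA G _ _ M ρ hρ
    obtain ⟨c, hc, hkey⟩ := key3 n
    have hlogA := Real.log_pos hA
    have hlog2 : 0 < Real.log 2 := Real.log_pos (by norm_num)
    set c' : ℝ := min c (Real.log A / ((n + 1) * Real.log 2)) with hc'
    have hc'0 : 0 < c' := lt_min hc (by positivity)
    refine uniformlyDiscrete_of_eig hρ hc'0 _ ?_
    rintro Γ ⟨htf, k, _, _, σ₀, R, hreal, hA'⟩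
    refine ⟨htf, fun γ hγ hinf => ?_⟩
    have hd1 : (1 : ℝ) ≤ finrank ℚ k := by exact_mod_cast (finrank_pos : 0 < finrank ℚ k)
    rcases hkey G M ρ Γ k σ₀ R hreal γ hγ hinf with ⟨l, hl, hle⟩ | ⟨τ, h1, ⟨j, l, h2, h3, h4, h5⟩, _⟩
    · exact ⟨l, hl, finrank ℚ k, finrank_pos,
        (Real.rpow_le_rpow_of_exponent_le (by linarith) (min_le_left _ _)).trans hle⟩
    · refine ⟨l, h4, 1, le_rfl, ?_⟩
      by_contra hcon
      push Not at hcon
      norm_num at hcon
      have h6 := pow_lt_of_lt (n := n) (j := j) hA (min_le_right c _) (norm_nonneg l) hcon (by omega)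
      have h7 := hA' τ h1
      linarith
  · intro k _ _ σ₀ A τ hA hdisc ⟨hS, t, ht, h⟩
    have h1 := disc_le σ₀ τ t hS ht h
    have hd1 : (1 : ℝ) ≤ finrank ℚ k := by exact_mod_cast (finrank_pos : 0 < finrank ℚ k)
    have hτ1 := hS.1
    have hlogτ : 0 < Real.log τ := Real.log_pos hτ1
    have h2 : Real.log ((2 * A ^ 2 * finrank ℚ k) ^ finrank ℚ k) ≤ Real.log |(discr k : ℝ)| :=
      Real.log_le_log (by positivity) hdisc
    rw [Real.log_pow, show (2 * A ^ 2 * (finrank ℚ k : ℝ)) = A ^ 2 * (2 * finrank ℚ k) by ring,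
      Real.log_mul (by positivity) (by positivity), Real.log_pow] at h2
    push_cast at h2
    have h3 : (finrank ℚ k : ℝ) * (2 * Real.log A) ≤ finrank ℚ k * (2 * Real.log τ) := by
      nlinarith
    have h4 : Real.log A ≤ Real.log τ := by
      have := le_of_mul_le_mul_left h3 (by linarith)
      linarith
    exact (Real.log_le_log_iff hA (by linarith)).mp h4

end Pool.Agent.Results.MP_162bbe_gt.SalemNumbers
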