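import Mathlib
import Pool.Agent.H225R3.MargDefs
import Pool.Agent.J4H57.TD.U

/-!
# Margulis' injectivity radius conjecture over fields with small composita of conjugates

`Pool.Agent.H225R3.MargDefs` contains the definitions: `Realization ρ Γ k n S` (a homomorphism `r`
from `Γ` to the `n` by `n` matrices over the ring of integers of the number field `k`, bounded under
all embeddings outside `S`, such that for `σ` in `S` the eigenvalues of `σ (r γ)` are eigenvalues of
`ρ γ`, and such that only `1` is mapped to a unipotent matrix) and `UniformlyDiscrete` (there is an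
identity neighbourhood `U` such that `g U g⁻¹` meets every group of the family in the identity only).

The theorem is about arithmetic groups over number fields `k`, of any degree, such that one can leave
the set `S` of the noncompact embeddings, and each of its nonempty subsets `T`, within composita of
bounded relative degree: there are `σ` in `T` and `σ'` outside `T` such that the field
`σ (k) σ' (k)` has degree at most `m` over `σ (k)`.  There is no condition on ramification,
residue degrees, discriminants or congruences.  The condition holds if `k` has a finite extension `L`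
and `L` has a subfield `F` such that `[L : k] [L : F] ≤ m` and `|S| [L : k] < [L : F] |Aut F|`.  So it
includes

* all fields `k` with more than `|S|` automorphisms, in particular all Galois fields (`L = F = k`);
* all fields `k` with a subfield `F` such that `|S| < [k : F] ≤ m` (`L = k`); for groups with only one
  noncompact embedding (`G` simple, `k` totally real) any subfield `F ≠ k` of bounded index will do;
* all fields `k` with an extension `L` of bounded degree with more than `|S| [L : k]` automorphisms
  (`F = L`); this is case (a) of the starting result `InertiaAutomorphisms` without the condition that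
  the automorphisms are inertia automorphisms.

The conclusion is also stronger than uniform discreteness: there is an eigenvalue of absolute value at
least `(1 + [k : ℚ]) ^ c`.

Method.  The new ingredient is a two-dimensional Lehmer theorem, of the type of the theorem of Amoroso
and David (`Pool.Agent.J4H57.TD.M`, `lehmer2`): if `a` and `b` are multiplicatively independent units
of a number field of degree `D`, and `|τ a| = |τ b| = 1` for all but `s` embeddings `τ`, then
`∑ τ, log⁺ |τ a| + log⁺ |τ b| ≥ c log D`, `c = c (s) > 0`.  It is applied to an eigenvalue `a` of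
`σ (r γ)` and an eigenvalue `b` of `σ' (r γ)` in the field which they generate together with `σ (k)`
and `σ' (k)`.  If all eigenvalues of `ρ γ` are small then `a` and `b` are multiplicatively dependent.
So the set of all `σ` for which some eigenvalue of `σ (r γ)` is not on the unit circle is a nonempty
subset `T` of `S` which cannot be left within small composita.
-/

set_option autoImplicit false

namespace Pool.Agent.Results.MP_162bbe_gt.SmallComposita

open NumberField Module Pool.Agent.H225R3.Marg Pool.Agent.J4H57.TD

universe u

/-- Each nonempty set `T` of embeddings contained in `S` contains an embedding `σ` such that for some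
embedding `σ'` outside `T` the field `σ (k) σ' (k)` has degree at most `m [k : ℚ]`. -/
def Escapes (m : ℕ) {k : Type} [Field k] [NumberField k] (S : Finset (k →+* ℂ)) : Prop :=
  ∀ T ⊆ S, T.Nonempty → ∃ σ ∈ T, ∃ σ' ∉ T,
    finrank ℚ (IntermediateField.adjoin ℚ (Set.range σ ∪ Set.range σ')) ≤ m * finrank ℚ k

/-- The torsion-free subgroups `Γ` of `G` which have a realization by matrices of size `n` over a
number field `k`, with set of noncompact embeddings `S`, such that `|S| ≤ s` and `Escapes m S`. -/
def Family (s n m : ℕ) {G : Type*} [Group G] {M : ℕ}
    (ρ : G →* Matrix (Fin M) (Fin M) ℂ) : Set (Subgroup G) :=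
  {Γ | (∀ γ ∈ Γ, ∀ N : ℕ, 0 < N → γ ^ N = 1 → γ = 1) ∧
    ∃ (k : Type) (_ : Field k) (_ : NumberField k) (S : Finset (k →+* ℂ))
      (_ : Realization ρ Γ k n S), S.card ≤ s ∧ Escapes m S}

/-- (1) For all `s`, `n` and `m` there is `c > 0` such that for every topological group `G` and every
continuous finite dimensional complex representation `ρ` of `G` (for instance the complexified adjoint
representation of a semisimple Lie group) the family `Family s n m ρ` of torsion-free subgroups of `G`
is uniformly discrete; moreover, if a subgroup `Γ` of `G` has a realization by matrices of size `n`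
over a number field `k`, with set of noncompact embeddings `S`, `|S| ≤ s` and `Escapes m S`, then each
element `γ` of `Γ` of infinite order has an eigenvalue `l` (of `ρ γ`) with `|l| ≥ (1 + [k : ℚ]) ^ c`.

(2) Let `L` be a finite extension of `k` and of `F`. If `[L : F] [L : k] ≤ m` and
`|S| [L : k] < [L : F] |Aut F|` then `Escapes m S`. -/
theorem result :
    (∀ s n m : ℕ, ∃ c : ℝ, 0 < c ∧ ∀ (G : Type u) [Group G] (M : ℕ)
      (ρ : G →* Matrix (Fin M) (Fin M) ℂ),
      (∀ [TopologicalSpace G], Continuous ρ → UniformlyDiscrete (Family s n m ρ)) ∧
      ∀ (Γ : Subgroup G) (k : Type) [Field k] [NumberField k] (S : Finset (k →+* ℂ)),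
        Realization ρ Γ k n S → S.card ≤ s → Escapes m S →
        ∀ γ ∈ Γ, (∀ N : ℕ, 0 < N → γ ^ N ≠ 1) →
          ∃ l : ℂ, IsEig (ρ γ) l ∧ (1 + finrank ℚ k : ℝ) ^ c ≤ ‖l‖) ∧
    ∀ (k F L : Type) [Field k] [NumberField k] [Field F] [NumberField F] [Field L]
      [NumberField L] [Algebra k L] [Algebra F L] (m : ℕ) (S : Finset (k →+* ℂ)),
      finrank F L * finrank k L ≤ m →
      S.card * finrank k L < finrank F L * Nat.card (F ≃+* F) → Escapes m S := by
  refine ⟨?_, ?_⟩
  · intro s n m
    obtain ⟨c, hc, hgap⟩ := leaves_gap s n m
    refine ⟨c, hc, fun G _ M ρ => ⟨?_, ?_⟩⟩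
    · intro _ hρ
      have hε : 0 < (2 : ℝ) ^ c - 1 := by
        have := Real.one_lt_rpow (by norm_num : (1 : ℝ) < 2) hc
        linarith
      refine ⟨_, nhd ρ hρ _ hε, ?_⟩
      rintro Γ ⟨htf, k, _, _, S, R, hs, hS⟩ g u hu hΓ
      refine final_step' R htf _ hε g u hu hΓ fun hnil => ?_
      obtain ⟨σ, hσ, l, hl, hle⟩ := hgap k S (R.r ⟨g * u * g⁻¹, hΓ⟩) _
        (Realization.inv_mul R _) hs hS (fun σ hσ l hl => Realization.norm_one R _ σ hσ l hl) hnil
      exact ⟨σ, hσ, l, hl, away hc finrank_pos hle⟩
    · intro Γ k _ _ S R hs hS γ hγ hinf
      have hnil : ∀ N : ℕ, 0 < N → ¬ IsNilpotent (R.r ⟨γ, hγ⟩ ^ N - 1) := by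
        intro N hN hnl
        rw [← map_pow] at hnl
        exact hinf N hN (congrArg Subtype.val (R.unipotent _ hnl))
      obtain ⟨σ, hσ, l, hl, hle⟩ := hgap k S (R.r ⟨γ, hγ⟩) _
        (Realization.inv_mul R _) hs hS (fun σ hσ l hl => Realization.norm_one R _ σ hσ l hl) hnil
      exact ⟨l, R.eig σ hσ ⟨γ, hγ⟩ l hl, hle⟩
  · intro k F L _ _ _ _ _ _ _ _ m S hm h
    exact leaves_of_aut hm h

end Pool.Agent.Results.MP_162bbe_gt.SmallComposita
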