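import Mathlib
import Pool.Agent.H225R3.MargDefs
import Pool.Agent.J4H57.TD.DE

/-!
# Margulis' injectivity radius conjecture for unitary groups over division algebras

The theorem is about arithmetic groups of `D`-linear maps of a vector space `V`, where `D` is a
division algebra over a number field `L`.  There is no condition on `L`, `D` and `V`, except that the
number of noncompact embeddings and the dimension of `V` are bounded, and that at the noncompact
embeddings the number of eigenvalues off the unit circle (on `V` as a vector space over `L`, with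
multiplicities) is less than the dimension of `D` over `L`, or, if this dimension is odd and `L` is a CM
field (or totally real), less than twice this dimension.

The main example.  Let `p + q = r δ`, let `k ≠ ℚ` be totally real with totally imaginary quadratic
extension `L`, let `D` be a central division algebra of degree `δ` (dimension `δ ^ 2`) over `L` with an
involution of the second kind, `V = D ^ r`, and `h` a hermitian form on `V` such that `SU (V, h)` is
`SU (p, q)` at one real place of `k` and compact at all others.  The arithmetic subgroups of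
`SU (V, h)` are irreducible uniform lattices in `SU (p, q)`.  An element of `SU (p, q)` has at most
`2 min (p, q)` eigenvalues off the unit circle, each of which is repeated `δ` times on `V`.  So the
theorem applies to all these lattices, over all fields, if `2 min (p, q) < δ`, and if `δ` is odd and
`min (p, q) < δ`.  For instance, if `p + q > 2` is a prime number (as for `SU (3, 2)`) these are all
lattices which do not come from hermitian forms over `L`.  The same is true for irreducible lattices in
products of such groups.  (If `Γ` is an arithmetic subgroup of the adjoint group and `n = p + q` then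
for `γ` in `Γ` the element `γ ^ n` is the image of some `g` in `SU (V, h)`, and one can take
`r γ = g ^ n` and for `ρ` the `n`-th tensor power of the adjoint representation, `e = n`.  This is why
`r` is not assumed to be a homomorphism.)

Method.  Suppose that all eigenvalues of `ρ γ` are small.  Two eigenvalues of `r γ` at the same
embedding of `L` generate a field of bounded degree over `L`, so by the two-dimensional Lehmer theorem
of `MP_162bbe_gt.SmallComposita` (`Pool.Agent.J4H57.TD.M`) they are multiplicatively dependent. Hence if
`z` is an eigenvalue off the unit circle, at the embedding `σ`, then all conjugates of `z` over `σ (L)`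
are off the unit circle, and even `|y| = |z| ^ (± 1)` for all these conjugates `y`.  They are the
eigenvalues of `r γ` on a primary component of `V`, which is a vector space over `D`, so that its
dimension over `L` is a multiple of that of `D`.  In the second case it is equal to this dimension, thus
odd, but the product of its eigenvalues has absolute value one.
-/

set_option autoImplicit false

namespace Pool.Agent.Results.MP_162bbe_gt.UnitaryDivision

open NumberField Module Pool.Agent.H225R3.Marg Pool.Agent.J4H57.TD

universe u

/-- The condition on the number of eigenvalues off the unit circle (`offCircle`, counted with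
multiplicities, on `V` as a vector space over `L`) of the maps `r γ` at the embeddings in `S`: it is less
than `dim D`, or less than `2 dim D` if `dim D` (over `L`) is odd and `L` is a CM field or totally real
(`HasConj L`). -/
def Few {G : Type*} [Group G] {M : ℕ} {ρ : G →* Matrix (Fin M) (Fin M) ℂ}
    {Γ : Subgroup G} {e : ℕ} {L D V : Type} [Field L] [NumberField L] [DivisionRing D]
    [Algebra L D] [AddCommGroup V] [Module D V] [Module L V] [IsScalarTower L D V]
    [Module.Finite L V] {S : Finset (L →+* ℂ)} (R : DRealization ρ Γ e L D V S) : Prop :=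
  (∀ σ ∈ S, ∀ γ : Γ, offCircle (cp L (R.r γ)) σ < finrank L D) ∨
    (HasConj L ∧ Odd (finrank L D) ∧
      ∀ σ ∈ S, ∀ γ : Γ, offCircle (cp L (R.r γ)) σ < 2 * finrank L D)

/-- The torsion-free subgroups `Γ` of `G` which have a realization `R`, up to `e`-th powers with
`0 < e ≤ E`, by linear maps of a vector space `V` over a division algebra `D` over a number field `L`,
with set of noncompact embeddings `S`, such that `|S| ≤ s`, `dim V ≤ n` (over `L`), and `Few R`. -/
def Family (s n E : ℕ) {G : Type*} [Group G] {M : ℕ}
    (ρ : G →* Matrix (Fin M) (Fin M) ℂ) : Set (Subgroup G) :=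
  {Γ | (∀ γ ∈ Γ, ∀ N : ℕ, 0 < N → γ ^ N = 1 → γ = 1) ∧
    ∃ (L D V : Type) (_ : Field L) (_ : NumberField L) (_ : DivisionRing D) (_ : Algebra L D)
      (_ : AddCommGroup V) (_ : Module D V) (_ : Module L V) (_ : IsScalarTower L D V)
      (_ : Module.Finite L V) (S : Finset (L →+* ℂ)) (e : ℕ) (R : DRealization ρ Γ e L D V S),
      0 < e ∧ e ≤ E ∧ S.card ≤ s ∧ finrank L V ≤ n ∧ Few R}

/-- For all `s`, `n` and `E` there is `c > 0` such that for every topological group `G` and every
continuous finite dimensional complex representation `ρ` of `G` the family `Family s n E ρ` of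
torsion-free subgroups of `G` is uniformly discrete; moreover, if a subgroup `Γ` of `G` has a realization
`R`, up to `e`-th powers with `0 < e ≤ E`, by linear maps of a vector space `V` over a division algebra
`D` over a number field `L`, with set of noncompact embeddings `S`, and `|S| ≤ s`, `dim V ≤ n` (over
`L`), and `Few R`, then each element `γ` of `Γ` of infinite order has an eigenvalue `l` (of `ρ γ`) with
`|l| ≥ (1 + [L : ℚ]) ^ c`. -/
theorem result (s n E : ℕ) : ∃ c : ℝ, 0 < c ∧ ∀ (G : Type u) [Group G] (M : ℕ)
    (ρ : G →* Matrix (Fin M) (Fin M) ℂ),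
    (∀ [TopologicalSpace G], Continuous ρ → UniformlyDiscrete (Family s n E ρ)) ∧
    ∀ (Γ : Subgroup G) (L D V : Type) [Field L] [NumberField L] [DivisionRing D] [Algebra L D]
      [AddCommGroup V] [Module D V] [Module L V] [IsScalarTower L D V] [Module.Finite L V]
      (S : Finset (L →+* ℂ)) (e : ℕ) (R : DRealization ρ Γ e L D V S),
      0 < e → e ≤ E → S.card ≤ s → finrank L V ≤ n → Few R →
      ∀ γ ∈ Γ, (∀ N : ℕ, 0 < N → γ ^ N ≠ 1) →
        ∃ l : ℂ, IsEig (ρ γ) l ∧ (1 + finrank ℚ L : ℝ) ^ c ≤ ‖l‖ := by
  obtain ⟨c, hc, hgap⟩ := few_gap s n
  have hc' : 0 < c / (E + 1) := by positivity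
  have main : ∀ (G : Type u) [Group G] (M : ℕ) (ρ : G →* Matrix (Fin M) (Fin M) ℂ)
      (Γ : Subgroup G) (L D V : Type) [Field L] [NumberField L] [DivisionRing D] [Algebra L D]
      [AddCommGroup V] [Module D V] [Module L V] [IsScalarTower L D V] [Module.Finite L V]
      (S : Finset (L →+* ℂ)) (e : ℕ) (R : DRealization ρ Γ e L D V S),
      0 < e → e ≤ E → S.card ≤ s → finrank L V ≤ n → Few R →
      ∀ γ ∈ Γ, (∀ N : ℕ, 0 < N → γ ^ N ≠ 1) →
        ∃ l : ℂ, IsEig (ρ γ) l ∧ (1 + finrank ℚ L : ℝ) ^ (c / (E + 1)) ≤ ‖l‖ := by
    intro G _ M ρ Γ L D V _ _ _ _ _ _ _ _ _ S e R he heE hS hn hfew γ hγ hinf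
    refine eig_of_gap R he heE hc hγ ?_
    refine hgap L D V S (R.r ⟨γ, hγ⟩) hS hn (R.unit _) (fun σ hσ z hz => R.compact σ hσ _ z hz)
      (not_nilp R hγ hinf) ?_
    rcases hfew with h | ⟨h1, h2, h3⟩
    · exact Or.inl fun σ hσ => h σ hσ _
    · exact Or.inr ⟨h1, h2, fun σ hσ => h3 σ hσ _⟩
  refine ⟨c / (E + 1), hc', fun G _ M ρ => ⟨?_, main G M ρ⟩⟩
  intro _ hρ
  refine uniformlyDiscrete_of_eig hρ hc' _ ?_
  rintro Γ ⟨htf, L, D, V, _, _, _, _, _, _, _, _, _, S, e, R, he, heE, hS, hn, hfew⟩
  refine ⟨htf, fun γ hγ hinf => ?_⟩
  obtain ⟨l, hl, hle⟩ := main G M ρ Γ L D V S e R he heE hS hn hfew γ hγ hinf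
  exact ⟨l, hl, finrank ℚ L, finrank_pos, hle⟩

end Pool.Agent.Results.MP_162bbe_gt.UnitaryDivision
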